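import Pool.Agent.Helper77.KA.Sc

set_option autoImplicit false

/-!
Project KA (MP_0b9e0b_ag), module KA-10: the scaling homotopy, main part.
-/

namespace Pool.Agent.Helper77.KA

open Pool.Agent.Helper16
open Pool.Agent.Helper1.KA
open Pool.Agent.Helper1.KL (Var VarF Key key fld spec cyc relations rat CH coef Idx)
open Pool.Agent.Helper1.KL (aff xc yc tr ec red xpt perp Prp ratf Vert Con At0 Quo cls IT RT)
open Pool.Agent.Helper19.KL (muP mu mu_eq muP_eval mu_ne at0_C at0_CX map_zcast res_zcast res_sum
  res_inv val_eq_one spec_some spec_none mem_ring_of_pow mem_aff charP_of cast_pow_p aff_tr fld_tr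
  key_map' trdeg_fld_map' exists_own essFinite_fld)

variable {k : Type} [Field k] {p a : ℕ} [Fact p.Prime] [CharP k p] {n : ℕ} {c : Fin n → k} {r : ℕ}

/-- The equation of the moving point. -/
theorem sc_eq (ha : a ≠ 0) {N : Type} [Field N] [Algebra k N] [Algebra (RatFunc k) N]
    {I : Finset (Fin n)} {z : Fin n ⊕ Fin n → Option N} {ρ : Fin n → ZMod p}
    (hz : XV p a c N z) (hI : ∀ i ∉ I, ρ i = 0) (hX : Xc a c ρ z = 0) (hB : Bc ρ z ≠ 0)
    (κ : RatFunc k →+* RatFunc N) (hκ : κ = RatFunc.C.comp (algebraMap (RatFunc k) N)) :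
    (RatFunc.C (ec ρ z) + RatFunc.X) ^ p - (RatFunc.C (ec ρ z) + RatFunc.X) =
      κ RatFunc.X * ∑ i ∈ I, (ρ i).cast * κ (RatFunc.C (c i)) *
          (RatFunc.C (xc z i) * mu p (Bc ρ z)) ^ a +
        ∑ i ∈ I, (ρ i).cast * (RatFunc.C (xc z i) * mu p (Bc ρ z)) := by
  have hN : CharP N p := charP_of (k := k)
  have hNr : CharP (RatFunc N) p :=
    charP_of_injective_algebraMap (algebraMap N (RatFunc N)).injective p
  have h1 := as_eq (c := c) ha hz ρ
  rw [hX, mul_zero, zero_add] at h1
  rw [add_pow_char]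
  have h2 : ∑ i ∈ I, ((ρ i).cast : RatFunc N) * κ (RatFunc.C (c i)) *
      (RatFunc.C (xc z i) * mu p (Bc ρ z)) ^ a =
      RatFunc.C (Xc a c ρ z) * mu p (Bc ρ z) ^ a := by
    simp_rw [mul_assoc]
    rw [sum_over hI]
    have h20 : RatFunc.C (Xc a c ρ z) = ∑ i, RatFunc.C ((ρ i).cast *
        algebraMap (RatFunc k) N (RatFunc.C (c i)) * xc z i ^ a) := by
      unfold Xc
      rw [map_sum]
    rw [h20, Finset.sum_mul]
    refine Finset.sum_congr rfl fun i _ => ?_
    rw [map_mul, map_mul, map_zcast, map_pow, mul_pow, hκ]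
    simp only [RingHom.comp_apply]
    ring
  have h3 : ∑ i ∈ I, ((ρ i).cast : RatFunc N) * (RatFunc.C (xc z i) * mu p (Bc ρ z)) =
      RatFunc.C (Bc ρ z) * mu p (Bc ρ z) := by
    rw [sum_over hI]
    have h30 : RatFunc.C (Bc ρ z) = ∑ i, RatFunc.C ((ρ i).cast * xc z i) := by
      unfold Bc
      rw [map_sum]
    rw [h30, Finset.sum_mul]
    refine Finset.sum_congr rfl fun i _ => ?_
    rw [map_mul, map_zcast]
    ring
  rw [h2, h3, hX, map_zero, zero_mul, mul_zero, zero_add]
  have h4 : RatFunc.C (Bc ρ z) * mu p (Bc ρ z) =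
      RatFunc.C (Bc ρ z) + (RatFunc.X ^ p - RatFunc.X) := by
    unfold mu
    have h5 : RatFunc.C (Bc ρ z) * RatFunc.C (Bc ρ z)⁻¹ = 1 := by
      rw [← map_mul, mul_inv_cancel₀ hB, map_one]
    calc RatFunc.C (Bc ρ z) * (1 + (RatFunc.X ^ p - RatFunc.X) * RatFunc.C (Bc ρ z)⁻¹)
        = RatFunc.C (Bc ρ z) + (RatFunc.X ^ p - RatFunc.X) *
          (RatFunc.C (Bc ρ z) * RatFunc.C (Bc ρ z)⁻¹) := by ring
      _ = _ := by rw [h5, mul_one]
  rw [h4, ← h1, map_sub, map_pow]
  ring

/-- The property of the limit points which appear in KA-10. -/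
abbrev ScP (a : ℕ) (c : Fin n → k) (r : ℕ) (ρ : Fin n → ZMod p) : Prp k n :=
  fun _ _ _ _ z => Xc a c ρ z = 0 ∧ (Bc ρ z = 0 ∨ Helper1.KL.Con (RatFunc k) r z)

omit [CharP k p] in
/-- The residues of the ratios. -/
theorem con_limit {N M : Type} [Field N] [Algebra (RatFunc k) N] [Field M] [Algebra (RatFunc k) M]
    {I : Finset (Fin n)} {z : Fin n ⊕ Fin n → Option N} (j : RatFunc N →+* M)
    (hj : algebraMap (RatFunc k) M = j.comp (RatFunc.C.comp (algebraMap (RatFunc k) N)))
    (htr : Algebra.trdeg (RatFunc k) N = r) {B : N}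
    (v : Place (RatFunc k) M) {w : Fin n ⊕ Fin n → Option v.resField}
    (h1 : ∀ i ∈ I, j (RatFunc.C (xc z i) * mu p B) ∈ v.ring ∧
      xc w i = v.res (j (RatFunc.C (xc z i) * mu p B)))
    (h2 : ∀ i ∉ I, xc w i = 0) (hinf : ∀ i ∉ I, xc z i = 0)
    (hv : ∃ m : N, m ≠ 0 ∧ v.val (j (RatFunc.C m)) ≠ 1) :
    Helper1.KL.Con (RatFunc k) r w := by
  classical
  let _ : Algebra N M := (j.comp RatFunc.C).toAlgebra
  have hNM : ∀ u : N, algebraMap N M u = j (RatFunc.C u) := fun _ => rfl
  have hst : IsScalarTower (RatFunc k) N M := IsScalarTower.of_algebraMap_eq fun u => by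
    rw [hj, hNM]
    rfl
  -- the dimension is not zero
  have hr : r ≠ 0 := by
    rintro rfl
    obtain ⟨m, hm0, hm⟩ := hv
    apply hm
    rw [← hNM]
    refine Place.val_eq_one_of_algebraic v ?_ ?_
    · have h3 : Algebra.IsAlgebraic (RatFunc k) N := by
        rw [← trdeg_eq_zero_iff]
        exact_mod_cast htr
      exact (h3.isAlgebraic m).algebraMap
    · rw [Ne, map_eq_zero_iff _ (algebraMap N M).injective]
      exact hm0
  obtain ⟨s, rfl⟩ : ∃ s, r = s + 1 := ⟨r - 1, by omega⟩
  have hmu : j (mu p B) ≠ 0 := by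
    rw [Ne, map_eq_zero_iff _ j.injective]
    exact mu_ne (Fact.out : p.Prime).ne_zero B
  let g : Fin n × Fin n → N := fun q => if xc w q.2 = 0 then 0 else xc z q.1 / xc z q.2
  have h3 : ∀ q : Fin n × Fin n, v.val (algebraMap N M (g q)) ≤ 1 ∧
      xc w q.1 / xc w q.2 = v.res (algebraMap N M (g q)) := by
    rintro ⟨i, i'⟩
    by_cases hw0 : xc w i' = 0
    · have hg : g (i, i') = 0 := if_pos hw0
      rw [hg, hw0, div_zero, map_zero, map_zero, v.res_zero]
      exact ⟨zero_le_one, rfl⟩
    · have hg : g (i, i') = xc z i / xc z i' := if_neg hw0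
      rw [hg]
      have hi' : i' ∈ I := by
        by_contra hi'
        exact hw0 (h2 i' hi')
      by_cases hi : i ∈ I
      · have h4 : algebraMap N M (xc z i / xc z i') =
            j (RatFunc.C (xc z i) * mu p B) * (j (RatFunc.C (xc z i') * mu p B))⁻¹ := by
          rw [hNM, map_div₀, map_div₀, map_mul, map_mul]
          generalize j (mu p B) = m at hmu
          rw [mul_inv, div_eq_mul_inv]
          field_simp
        have h6 : v.val (j (RatFunc.C (xc z i') * mu p B)) = 1 :=
          val_eq_one v (h1 i' hi').1 (by rw [← (h1 i' hi').2]; exact hw0)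
        have h5 := res_inv v h6
        rw [h4]
        have h7 : j (RatFunc.C (xc z i) * mu p B) * (j (RatFunc.C (xc z i') * mu p B))⁻¹ ∈
            v.ring := mul_mem (h1 i hi).1 h5.1
        refine ⟨h7, ?_⟩
        rw [v.res_mul (h1 i hi).1 h5.1, h5.2, (h1 i hi).2, (h1 i' hi').2, div_eq_mul_inv]
      · rw [hinf i hi, h2 i hi, zero_div, zero_div, map_zero, map_zero, v.res_zero]
        exact ⟨zero_le_one, rfl⟩
  have h4 := Pool.Agent.HC.abh_adjoin (k₀ := RatFunc k) v (M := N) (s := s)
    (by rw [htr]; push_cast; exact le_refl _) (by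
      obtain ⟨m, hm0, hm⟩ := hv
      exact ⟨m, hm0, hm⟩)
    g (fun q => (h3 q).1)
  have h5 : {u | ∃ i i', u = xc w i / xc w i'} =
      Set.range fun q : Fin n × Fin n => v.res (algebraMap N M (g q)) := by
    ext u
    constructor
    · rintro ⟨i, i', rfl⟩
      exact ⟨(i, i'), ((h3 (i, i')).2).symm⟩
    · rintro ⟨⟨i, i'⟩, rfl⟩
      exact ⟨i, i', (h3 (i, i')).2.symm⟩
  unfold Helper1.KL.Con ratf
  rw [h5]
  push_cast
  exact add_le_add_left h4 1

omit [CharP k p] in
/-- The reduced point of the limit, if the place is trivial on `N`. -/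
theorem key_limit {N M : Type} [Field N] [Algebra (RatFunc k) N] [Field M] [Algebra (RatFunc k) M]
    {I : Finset (Fin n)} {z : Fin n ⊕ Fin n → Option N} (j : RatFunc N →+* M)
    (hj : algebraMap (RatFunc k) M = j.comp (RatFunc.C.comp (algebraMap (RatFunc k) N)))
    (hz : ∀ i ∈ I, z (Sum.inl i) = some (xc z i)) (hinf : ∀ i ∉ I, z (Sum.inl i) = none) {B : N}
    {ρ : Fin n → ZMod p}
    (v : Place (RatFunc k) M) {w : Fin n ⊕ Fin n → Option v.resField}
    (h1 : ∀ i ∈ I, w (Sum.inl i) = some (v.res (j (RatFunc.C (xc z i) * mu p B))))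
    (h2 : ∀ i ∉ I, w (Sum.inl i) = none)
    (h3 : ec ρ w = v.res (j (RatFunc.C (ec ρ z) + RatFunc.X)))
    (hv : ∀ m : N, m ≠ 0 → v.val (j (RatFunc.C m)) = 1) (hX : v.val (j RatFunc.X) < 1) :
    key (RatFunc k) (red ρ w) = key (RatFunc k) (red ρ z) := by
  have hmem : ∀ m : N, j (RatFunc.C m) ∈ v.ring := by
    intro m
    by_cases hm : m = 0
    · subst hm
      rw [map_zero, map_zero]
      exact zero_mem _
    · exact (hv m hm).le
  let θ : N →ₐ[RatFunc k] v.resField :=
    { toFun := fun u => v.res (j (RatFunc.C u))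
      map_one' := by
        change v.res (j (RatFunc.C 1)) = 1
        rw [map_one, map_one, v.res_one]
      map_mul' := fun u u' => by
        change v.res (j (RatFunc.C (u * u'))) = _
        rw [map_mul, map_mul, v.res_mul (hmem u) (hmem u')]
      map_zero' := by
        change v.res (j (RatFunc.C 0)) = 0
        rw [map_zero, map_zero, v.res_zero]
      map_add' := fun u u' => by
        change v.res (j (RatFunc.C (u + u'))) = _
        rw [map_add, map_add, v.res_add (hmem u) (hmem u')]
      commutes' := fun u => by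
        rw [← v.res_algebraMap, hj]
        rfl }
  have hθ : ∀ u, θ u = v.res (j (RatFunc.C u)) := fun _ => rfl
  have hXm : j RatFunc.X ∈ v.ring := hX.le
  have hX0 : v.res (j RatFunc.X) = 0 := (v.res_eq_zero_iff hXm).2 hX
  have hp : p ≠ 0 := (Fact.out : p.Prime).ne_zero
  -- the residue of the scaling factor
  have hmu : j (mu p B) ∈ v.ring ∧ v.res (j (mu p B)) = 1 := by
    have h4 : j (mu p B) = 1 + (j RatFunc.X ^ p - j RatFunc.X) * j (RatFunc.C B⁻¹) := by
      unfold mu
      simp only [map_add, map_one, map_mul, map_sub, map_pow]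
    have h5 : j RatFunc.X ^ p - j RatFunc.X ∈ v.ring := sub_mem (pow_mem hXm p) hXm
    have h6 : (j RatFunc.X ^ p - j RatFunc.X) * j (RatFunc.C B⁻¹) ∈ v.ring :=
      mul_mem h5 (hmem _)
    rw [h4]
    refine ⟨add_mem (one_mem _) h6, ?_⟩
    rw [v.res_add (one_mem _) h6, v.res_one, v.res_mul h5 (hmem _),
      v.res_sub (pow_mem hXm p) hXm, v.res_pow hXm, hX0, zero_pow hp, sub_zero, zero_mul, add_zero]
  have h4 : red ρ w = fun jj => (red ρ z jj).map θ := by
    funext jj
    cases jj with
    | inl i =>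
      change w (Sum.inl i) = (z (Sum.inl i)).map θ
      by_cases hi : i ∈ I
      · rw [h1 i hi, hz i hi]
        change _ = some (θ (xc z i))
        rw [hθ, map_mul, v.res_mul (hmem _) hmu.1, hmu.2, mul_one]
      · rw [h2 i hi, hinf i hi]
        rfl
    | inr _ =>
      change some (ec ρ w) = some (θ (ec ρ z))
      rw [h3, hθ, map_add, v.res_add (hmem _) hXm, hX0, add_zero]
  rw [h4, key_map']

theorem sc_main (ha : a ≠ 0) (hHom : ModHom k p a c r) {N : Type} [Field N] [Algebra k N]
    [Algebra (RatFunc k) N] [IsScalarTower k (RatFunc k) N]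
    (hfin : Algebra.EssFiniteType (RatFunc k) N) (htr : Algebra.trdeg (RatFunc k) N = r)
    {I : Finset (Fin n)} {z : Fin n ⊕ Fin n → Option N} {ρ : Fin n → ZMod p}
    (hg : Good p a c r I z) (hI : ∀ i ∉ I, ρ i = 0) (hρ : ρ ≠ 0) (hX : Xc a c ρ z = 0)
    (hB : Bc ρ z ≠ 0) :
    SS p a c r ρ z ∈ GG p a c r I.card ⊔ SP p a c r I ρ (ScP a c r ρ) := by
  have hp : p ≠ 0 := (Fact.out : p.Prime).ne_zero
  have hzI : ∀ i ∈ I, z (Sum.inl i) = some (xc z i) := by
    intro i hi
    rcases hg.mem.cases i with ⟨_, h1, _⟩ | ⟨h1, _, _⟩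
    · exact absurd h1 (hg.aff i hi)
    · exact h1
  have hzO : ∀ i ∉ I, xc z i = 0 := by
    intro i hi
    unfold xc
    rw [hg.inf i hi]
    rfl
  set B := Bc ρ z with hBdef
  refine hHom N I z ρ (RatFunc.C.comp (algebraMap (RatFunc k) N))
    (fun i => RatFunc.C (xc z i) * mu p B) (RatFunc.C (ec ρ z) + RatFunc.X) _ hfin htr hg hI
    (fun h => absurd h hρ) ?_ ?_ ?_ (at0_CX _) ?_ ?_
  · intro u
    rw [RingHom.comp_apply]
    congr 1
    exact (IsScalarTower.algebraMap_apply k (RatFunc k) N u).symm
  · exact at0_C _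
  · intro i _
    exact at0_Cmu hp _ _
  · exact sc_eq ha hg.mem hI hX hB _ rfl
  · intro M _ _ j z' v hj hMfin hMtr halg hz' hz1 hz2 hec hord hw hwd
    have hjX : j RatFunc.X ≠ 0 := by
      rw [Ne, map_eq_zero_iff _ j.injective]
      exact RatFunc.X_ne_zero
    by_cases haff : ∀ i ∈ I, spec v z' (Sum.inr i) ≠ none
    · -- all coordinates stay affine
      obtain ⟨hl1, hl2, hl3⟩ := limit hz' (fun i hi => hz1 i hi) hz2 v hw haff
      have hwgood : Good p a c r I (spec v z') :=
        ⟨hw, haff, fun i hi => spec_none v (hz2 i hi), hwd⟩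
      have hCm : ∀ i, algebraMap (RatFunc k) M (RatFunc.C (c i)) ∈ v.ring := fun i =>
        v.ring.algebraMap_mem _
      have hXw : Xc a c ρ (spec v z') = 0 := by
        have h0 : ∀ i ∈ I, ((ρ i).cast : M) * (algebraMap (RatFunc k) M (RatFunc.C (c i)) *
            j (RatFunc.C (xc z i) * mu p B) ^ a) ∈ v.ring := fun i hi =>
          mul_mem (res_zcast v (ρ i)).1 (mul_mem (hCm i) (pow_mem (hl1 i hi).1 a))
        have h1 : Xc a c ρ (spec v z') = v.res (∑ i ∈ I, (ρ i).cast *
            (algebraMap (RatFunc k) M (RatFunc.C (c i)) *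
              j (RatFunc.C (xc z i) * mu p B) ^ a)) := by
          rw [(res_sum v I _ h0).2]
          unfold Xc
          simp_rw [mul_assoc]
          rw [← sum_over hI]
          refine Finset.sum_congr rfl fun i hi => ?_
          rw [v.res_mul (res_zcast v (ρ i)).1 (mul_mem (hCm i) (pow_mem (hl1 i hi).1 a)),
            (res_zcast v (ρ i)).2, v.res_mul (hCm i) (pow_mem (hl1 i hi).1 a),
            v.res_pow (hl1 i hi).1, (hl1 i hi).2.2, v.res_algebraMap]
        have h2 : ∑ i ∈ I, ((ρ i).cast : M) * (algebraMap (RatFunc k) M (RatFunc.C (c i)) *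
            j (RatFunc.C (xc z i) * mu p B) ^ a) = 0 := by
          have h3 : ∑ i ∈ I, ((ρ i).cast : M) * (algebraMap (RatFunc k) M (RatFunc.C (c i)) *
              j (RatFunc.C (xc z i) * mu p B) ^ a) =
              j (RatFunc.C (Xc a c ρ z) * mu p B ^ a) := by
            rw [sum_over hI]
            unfold Xc
            rw [map_sum, Finset.sum_mul, map_sum]
            refine Finset.sum_congr rfl fun i _ => ?_
            have h4 : RatFunc.C ((ρ i).cast * algebraMap (RatFunc k) N (RatFunc.C (c i)) *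
                xc z i ^ a) = (ρ i).cast * (RatFunc.C (algebraMap (RatFunc k) N
                  (RatFunc.C (c i))) * RatFunc.C (xc z i) ^ a) := by
              rw [map_mul, map_mul, map_zcast, map_pow, mul_assoc]
            have h5 : algebraMap (RatFunc k) M (RatFunc.C (c i)) =
                j (RatFunc.C (algebraMap (RatFunc k) N (RatFunc.C (c i)))) := by
              rw [hj]
              rfl
            rw [h4, h5, ← map_pow j, mul_pow]
            rw [show (((ρ i).cast : RatFunc N) * (RatFunc.C (algebraMap (RatFunc k) N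
              (RatFunc.C (c i))) * RatFunc.C (xc z i) ^ a)) * mu p B ^ a =
              ((ρ i).cast : RatFunc N) * (RatFunc.C (algebraMap (RatFunc k) N
              (RatFunc.C (c i))) * (RatFunc.C (xc z i) ^ a * mu p B ^ a)) by ring,
              map_mul j ((ρ i).cast : RatFunc N), map_zcast j]
            simp only [map_mul]
          rw [h3, hX, map_zero, zero_mul, map_zero]
        rw [h1, h2, v.res_zero]
      by_cases hv : ∀ m : N, m ≠ 0 → v.val (j (RatFunc.C m)) = 1
      · -- the place is trivial on `N`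
        rcases lt_or_gt_of_ne hord with hneg | hpos
        · -- a pole of `s`: impossible
          exfalso
          have h1 : ∃ i, xc z i ≠ 0 ∧ i ∈ I := by
            by_contra h
            push Not at h
            apply hB
            rw [hBdef]
            unfold Bc
            refine Finset.sum_eq_zero fun i _ => ?_
            by_cases hx : xc z i = 0
            · rw [hx, mul_zero]
            · rw [hzO i (h i hx), mul_zero]
          obtain ⟨i, hx, hiI⟩ := h1
          have h1 := (hl1 i hiI).1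
          have hmu : j (mu p B) ∈ v.ring := by
            have h2 : j (mu p B) = j (RatFunc.C (xc z i) * mu p B) * j (RatFunc.C (xc z i)⁻¹) := by
              rw [← map_mul]
              congr 1
              have h3 : RatFunc.C (xc z i) * RatFunc.C (xc z i)⁻¹ = 1 := by
                rw [← map_mul, mul_inv_cancel₀ hx, map_one]
              calc mu p B = mu p B * (RatFunc.C (xc z i) * RatFunc.C (xc z i)⁻¹) := by
                    rw [h3, mul_one]
                _ = _ := by ring
            rw [h2]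
            exact mul_mem h1 (hv _ (inv_ne_zero hx)).le
          have h2 : j RatFunc.X ^ p - j RatFunc.X = (j (mu p B) - 1) * j (RatFunc.C B) := by
            have h3 : j (RatFunc.C B⁻¹) * j (RatFunc.C B) = 1 := by
              rw [← map_mul, ← map_mul, inv_mul_cancel₀ hB, map_one, map_one]
            unfold mu
            simp only [map_add, map_one, map_mul, map_sub, map_pow]
            rw [add_sub_cancel_left, mul_assoc, h3, mul_one]
          have h3 : j RatFunc.X ∈ v.ring := by
            refine mem_ring_of_pow v (Fact.out : p.Prime).one_lt (p := p) ?_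
            rw [h2]
            exact mul_mem (sub_mem hmu (one_mem _)) (hv _ hB).le
          have h4 := (v.ord_neg_iff hjX).1 hneg
          exact absurd h3 (not_le.2 h4)
        · right
          refine ⟨hpos, ?_⟩
          refine key_limit (B := B) j hj hzI hg.inf v
            (fun i hi => (hl1 i hi).2.1) (fun i hi => spec_none v (hz2 i hi)) ?_ hv
            ((v.ord_pos_iff hjX).1 hpos)
          rw [(hl3 ρ).2, hec]
      · -- the place is not trivial on `N`
        left
        push Not at hv
        have hcon := con_limit (p := p) (B := B) j hj htr v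
          (fun i hi => ⟨(hl1 i hi).1, (hl1 i hi).2.2⟩) hl2 hzO hv
        refine Submodule.mem_sup_right ?_
        let _ : Algebra k v.resField :=
          ((algebraMap (RatFunc k) v.resField).comp (algebraMap k (RatFunc k))).toAlgebra
        have hst : IsScalarTower k (RatFunc k) v.resField :=
          IsScalarTower.of_algebraMap_eq fun _ => rfl
        exact Submodule.subset_span ⟨v.resField, inferInstance, inferInstance, inferInstance, hst,
          spec v z', hwgood, ⟨hXw, Or.inr hcon⟩, rfl⟩
    · -- a coordinate becomes infinite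
      left
      refine Submodule.mem_sup_left ?_
      push Not at haff
      obtain ⟨i0, hi0, hi1⟩ := haff
      refine SH_mem _ hw hwd ?_
      refine Finset.card_lt_card ⟨?_, ?_⟩
      · intro i hi
        rw [mem_aff] at hi
        by_contra hiI
        apply hi
        rcases hw.cases i with ⟨_, h1, _⟩ | ⟨h1, _, _⟩
        · exact h1
        · rw [spec_none v (hz2 i hiI)] at h1
          exact absurd h1.symm (Option.some_ne_none _)
      · intro hsub
        have := hsub hi0
        rw [mem_aff] at this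
        exact this hi1

/-- KA-10: the scaling homotopy. -/
theorem modSc (ha : a ≠ 0) (hHom : ModHom k p a c r) : ModSc k p a c r := by
  intro N _ _ _ _ I z ρ hg hI hρ hX hB
  obtain ⟨z0, hz0⟩ := exists_own (F := RatFunc k) z
  have h1 : Good p a c r I (fun jj => (z0 jj).map (fld (RatFunc k) z).val) := by
    rw [hz0]; exact hg
  have h2 := good_of_map (fld (RatFunc k) z).val h1
  have h3 : Xc a c ρ z0 = 0 := by
    have := Xc_map (c := c) (a := a) (fld (RatFunc k) z).val ρ z0
    rw [hz0, hX] at this
    exact (map_eq_zero_iff _ (fld (RatFunc k) z).val.injective).1 this.symm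
  have h4 : Bc ρ z0 ≠ 0 := by
    intro h
    have := Bc_map (fld (RatFunc k) z).val ρ z0
    rw [hz0, h, map_zero] at this
    exact hB this
  have h5 : SS p a c r ρ z = SS p a c r ρ z0 := by
    conv_lhs => rw [← hz0]
    exact SH_map _ _ _
  rw [h5]
  exact sc_main ha hHom (essFinite_fld z) hg.dim h2 hI hρ h3 h4

end Pool.Agent.Helper77.KA
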