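import Pool.Agent.Helper1.KA.GeneralB
import Pool.Agent.Helper19.KL.Sc

set_option autoImplicit false

/-!
Project KA (MP_0b9e0b_ag), module KA-10: the scaling homotopy.
-/

namespace Pool.Agent.Helper77.KA

open Pool.Agent.Helper16
open Pool.Agent.Helper1.KA
open Pool.Agent.Helper1.KL (Var VarF Key key fld spec cyc relations rat CH coef Idx)
open Pool.Agent.Helper1.KL (aff xc yc tr ec red xpt perp Prp ratf Vert Con At0 Quo cls IT RT)
open Pool.Agent.Helper19.KL (muP mu mu_eq muP_eval mu_ne at0_C at0_CX map_zcast res_zcast res_sum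
  res_inv val_eq_one spec_some spec_none mem_ring_of_pow mem_aff charP_of cast_pow_p aff_tr fld_tr
  key_map' trdeg_fld_map' exists_own essFinite_fld)

section At

variable {N : Type} [Field N]

theorem at0_Cmu {p : ℕ} (hp : p ≠ 0) (B u : N) : At0 (RatFunc.C u * mu p B) u :=
  ⟨Polynomial.C u * muP p B, 1, by simp, by
    rw [Polynomial.eval_mul, muP_eval hp, Polynomial.eval_C, mul_one], by
    rw [mu_eq, map_mul, RatFunc.algebraMap_C, map_one, div_one]⟩

end At

section Pts

variable {k : Type} [Field k] {p a : ℕ} [Fact p.Prime] [CharP k p] {n : ℕ} {c : Fin n → k} {r : ℕ}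
  {N : Type} [Field N] [Algebra (RatFunc k) N]

theorem XV_tr (h : Fin n → ZMod p) {z : Fin n ⊕ Fin n → Option N} (hz : XV p a c N z) :
    XV p a c N (tr h z) := by
  have : CharP N p := charP_of (k := k)
  intro i
  rcases hz i with h1 | ⟨u, w, h1, h2, h3⟩
  · left
    refine ⟨h1.1, ?_⟩
    simp only [tr, h1.2, Option.map_none]
  · right
    refine ⟨u, w + (h i).cast, h1, ?_, ?_⟩
    · simp only [tr, h2, Option.map_some]
    · rw [add_pow_char, cast_pow_p, ← h3]
      ring

/-- Points with less affine coordinates. -/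
theorem SH_mem (H : Finset (Fin n → ZMod p)) {z : Fin n ⊕ Fin n → Option N} {m : ℕ}
    (hz : XV p a c N z) (hd : Algebra.trdeg (RatFunc k) (fld (RatFunc k) z) = r)
    (hm : (aff z).card < m) : SH p a c r H z ∈ GG p a c r m := by
  unfold SH
  refine sum_mem fun h _ => Submodule.subset_span ?_
  exact ⟨N, _, _, tr h z, XV_tr h hz, by rw [fld_tr]; exact hd, by rw [aff_tr]; exact hm, rfl⟩

omit [CharP k p] in
theorem sum_over {M : Type} [Field M] {I : Finset (Fin n)} {ρ : Fin n → ZMod p}
    (hI : ∀ i ∉ I, ρ i = 0) (u : Fin n → M) :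
    ∑ i ∈ I, (ρ i).cast * u i = ∑ i, (ρ i).cast * u i := by
  refine Finset.sum_subset (Finset.subset_univ I) fun i _ hi => ?_
  rw [hI i hi]
  simp

omit [Fact p.Prime] [CharP k p] in
theorem good_of_map {N' : Type} [Field N'] [Algebra (RatFunc k) N'] {I : Finset (Fin n)}
    (φ : N →ₐ[RatFunc k] N') {z : Fin n ⊕ Fin n → Option N}
    (h : Good p a c r I (fun j => (z j).map φ)) : Good p a c r I z where
  mem := (XV_map φ z).1 h.mem
  aff i hi h0 := h.aff i hi (by simp only [h0]; rfl)
  inf i hi := by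
    have := h.inf i hi
    simpa only [Option.map_eq_none_iff] using this
  dim := by
    rw [← h.dim, trdeg_fld_map']

end Pts

section Lim

variable {k : Type} [Field k] {p a : ℕ} [Fact p.Prime] {n : ℕ} {c : Fin n → k}

/-- The properties of a limit point all whose coordinates in `I` are affine. -/
theorem limit {M : Type} [Field M] [Algebra (RatFunc k) M]
    {I : Finset (Fin n)} {z' : Fin n ⊕ Fin n → Option M} (hz' : XV p a c M z')
    {u : Fin n → M} (h1 : ∀ i ∈ I, z' (Sum.inl i) = some (u i) ∧ z' (Sum.inr i) ≠ none)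
    (h2 : ∀ i ∉ I, z' (Sum.inl i) = none) (v : Place (RatFunc k) M)
    (hw : XV p a c v.resField (spec v z')) (haff : ∀ i ∈ I, spec v z' (Sum.inr i) ≠ none) :
    (∀ i ∈ I, u i ∈ v.ring ∧ spec v z' (Sum.inl i) = some (v.res (u i)) ∧
      xc (spec v z') i = v.res (u i)) ∧
    (∀ i ∉ I, xc (spec v z') i = 0) ∧
    (∀ ρ : Fin n → ZMod p, ec ρ z' ∈ v.ring ∧ ec ρ (spec v z') = v.res (ec ρ z')) := by
  have h3 : ∀ i ∈ I, u i ∈ v.ring ∧ spec v z' (Sum.inl i) = some (v.res (u i)) ∧
      xc (spec v z') i = v.res (u i) := by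
    intro i hi
    rcases hw.cases i with ⟨_, h4, _⟩ | ⟨h5, _, _⟩
    · exact absurd h4 (haff i hi)
    · have h7 : spec v z' (Sum.inl i) ≠ none := by rw [h5]; exact Option.some_ne_none _
      obtain ⟨h8, h9⟩ := spec_some v (h1 i hi).1 h7
      have h10 : xc (spec v z') i = v.res (u i) := by
        rw [h5] at h9
        exact Option.some.inj h9
      exact ⟨h8, h9, h10⟩
  refine ⟨h3, fun i hi => ?_, fun ρ => ?_⟩
  · unfold xc
    rw [spec_none v (h2 i hi)]
    rfl
  · have h4 : ∀ i, yc z' i ∈ v.ring ∧ yc (spec v z') i = v.res (yc z' i) := by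
      intro i
      by_cases hi : i ∈ I
      · rcases hz'.cases i with ⟨_, h5, _⟩ | ⟨_, h5, _⟩
        · exact absurd h5 (h1 i hi).2
        · obtain ⟨h6, h7⟩ := spec_some v h5 (haff i hi)
          refine ⟨h6, ?_⟩
          unfold yc at h7 ⊢
          rw [h7]
          rfl
      · have h5 : z' (Sum.inr i) = none := by
          rcases hz'.cases i with ⟨_, h5, _⟩ | ⟨h5, _, _⟩
          · exact h5
          · rw [h2 i hi] at h5
            exact absurd h5.symm (Option.some_ne_none _)
        have h6 : yc z' i = 0 := by unfold yc; rw [h5]; rfl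
        have h7 : yc (spec v z') i = 0 := by unfold yc; rw [spec_none v h5]; rfl
        rw [h6, h7]
        exact ⟨zero_mem _, v.res_zero.symm⟩
    have h5 := res_sum v Finset.univ (fun i => (ρ i).cast * yc z' i)
      fun i _ => mul_mem (res_zcast v (ρ i)).1 (h4 i).1
    refine ⟨h5.1, ?_⟩
    unfold ec
    rw [h5.2]
    refine Finset.sum_congr rfl fun i _ => ?_
    rw [v.res_mul (res_zcast v (ρ i)).1 (h4 i).1, (res_zcast v (ρ i)).2, (h4 i).2]

end Lim

end Pool.Agent.Helper77.KA
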